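import Mathlib

/-!
# Generating flags of flats in a matroid by hyperplanes: definitions of the statement
-/

set_option autoImplicit false

namespace Pool.H50.MV.HyperplanesGenerateFlags

section Defs

variable {α : Type*}

/-- A hyperplane of `M` : a flat of rank `r(M) - 1`. -/
def IsHyperplane (M : Matroid α) (K : Set α) : Prop :=
  M.IsFlat K ∧ M.eRk K + 1 = M.eRank

/-- A complete flag of flats `F 0 ⊂ F 1 ⊂ ⋯ ⊂ F d = E` of `M`, with `rank (F i) = i`. -/
def IsCompleteFlag (M : Matroid α) (d : ℕ) (F : Fin (d + 1) → Set α) : Prop :=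
  (∀ i, M.IsFlat (F i)) ∧ (∀ i, M.eRk (F i) = ((i : ℕ) : ℕ∞)) ∧ StrictMono F ∧
    F (Fin.last d) = M.E

/-- The set `H` (of hyperplanes) generates the flag `F`: every `F i` is the intersection of a
subfamily of `H`, the empty intersection being the ground set. -/
def Generates (M : Matroid α) {d : ℕ} (H : Set (Set α)) (F : Fin (d + 1) → Set α) : Prop :=
  ∀ i, ∃ S ⊆ H, F i = M.E ∩ ⋂₀ S

/-- The function `μ(m,d)`: `d` if `m = 1` or `d = 1`, `md/2` for even `m`, and
`md/2 + ⌊2d/3⌋ - d/2 = (m-1)d/2 + ⌊2d/3⌋` for odd `m ≥ 3`. -/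
def mu (m d : ℕ) : ℕ :=
  if m = 1 ∨ d = 1 then d
  else if Even m then m * d / 2
  else (m - 1) * d / 2 + 2 * d / 3

end Defs

end Pool.H50.MV.HyperplanesGenerateFlags
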