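import Mathlib
import Pool.Agent.H50.MV.HyperplanesGenerateFlagsDefs

/-!
# Generating flags of flats in a matroid by hyperplanes: the proof
-/

set_option autoImplicit false

namespace Pool.H50.MV.HyperplanesGenerateFlags

section Comb

variable {I κ : Type*} [DecidableEq I]

/-- pairings of a finset -/
inductive Paired (Q : I → I → Prop) : Finset I → Prop
  | empty : Paired Q ∅
  | step {X : Finset I} {x y : I} : Paired Q X → x ≠ y → x ∉ X → y ∉ X → Q x y →
      Paired Q (insert x (insert y X))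

lemma exists_inj_paired (h : I → I) (F : Finset I) :
    ∃ S ⊆ F, Set.InjOn h S ∧ Paired (fun x y => x ∈ F ∧ y ∈ F ∧ h x = h y) (F \ S) := by
  classical
  suffices H : ∀ (n : ℕ) (G : Finset I), G ⊆ F → G.card = n →
      ∃ S ⊆ G, Set.InjOn h S ∧ Paired (fun x y => x ∈ F ∧ y ∈ F ∧ h x = h y) (G \ S) from
    H _ F (Finset.Subset.refl _) rfl
  intro n
  induction n using Nat.strong_induction_on with
  | _ n ih =>
    intro G hG hn
    by_cases hinj : Set.InjOn h G
    · exact ⟨G, Finset.Subset.refl _, hinj, by simpa using Paired.empty⟩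
    · simp only [Set.InjOn, not_forall] at hinj
      obtain ⟨x, hx, y, hy, hxy, hne⟩ := hinj
      have hx' : x ∈ G := hx
      have hy' : y ∈ G := hy
      have hsub : (G.erase x).erase y ⊆ G :=
        (Finset.erase_subset _ _).trans (Finset.erase_subset _ _)
      have hcard : ((G.erase x).erase y).card < n := by
        rw [← hn]
        apply Finset.card_lt_card
        refine ⟨hsub, fun hh => ?_⟩
        have := hh hy'
        simp at this
      obtain ⟨S, hS, hSinj, hP⟩ := ih _ hcard _ (hsub.trans hG) rfl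
      refine ⟨S, hS.trans hsub, hSinj, ?_⟩
      have hxS : x ∉ S := fun hh => by have := hS hh; simp at this
      have hyS : y ∉ S := fun hh => by have := hS hh; simp at this
      have heq : G \ S = insert x (insert y (((G.erase x).erase y) \ S)) := by
        ext z
        simp only [Finset.mem_sdiff, Finset.mem_insert, Finset.mem_erase]
        constructor
        · rintro ⟨h1, h2⟩
          by_cases hzx : z = x
          · exact Or.inl hzx
          · by_cases hzy : z = y
            · exact Or.inr (Or.inl hzy)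
            · exact Or.inr (Or.inr ⟨⟨hzy, hzx, h1⟩, h2⟩)
        · rintro (rfl | rfl | ⟨⟨_, _, h1⟩, h2⟩)
          · exact ⟨hx', hxS⟩
          · exact ⟨hy', hyS⟩
          · exact ⟨h1, h2⟩
      rw [heq]
      refine Paired.step hP hne ?_ ?_ ⟨hG hx', hG hy', hxy⟩
      · simp
      · simp

/-- `CostLe cov H X n`: at most `n` objects cover the three slots of each item of `X`,
except possibly the last slots of the items in `H`. -/
def CostLe (cov : κ → Fin 3 → I → Prop) (H X : Finset I) (n : ℕ) : Prop :=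
  ∃ K : Finset κ, K.card ≤ n ∧ ∀ x ∈ X, (∃ k ∈ K, cov k 0 x) ∧ (∃ k ∈ K, cov k 1 x) ∧
    (x ∉ H → ∃ k ∈ K, cov k 2 x)

def Good (cov : κ → Fin 3 → I → Prop) (H X : Finset I) : Prop :=
  ∃ n, CostLe cov H X n ∧ 3 * n + (X ∩ H).card ≤ 5 * X.card

lemma CostLe.union {cov : κ → Fin 3 → I → Prop} {H X Y : Finset I} {n m : ℕ}
    (hX : CostLe cov H X n) (hY : CostLe cov H Y m) : CostLe cov H (X ∪ Y) (n + m) := by
  classical
  obtain ⟨K, hK, hKX⟩ := hX
  obtain ⟨L, hL, hLY⟩ := hY
  refine ⟨K ∪ L, (Finset.card_union_le _ _).trans (by omega), ?_⟩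
  intro x hx
  rcases Finset.mem_union.1 hx with hx | hx
  · obtain ⟨⟨a, ha, ha'⟩, ⟨b, hb, hb'⟩, hc⟩ := hKX x hx
    refine ⟨⟨a, Finset.mem_union_left _ ha, ha'⟩, ⟨b, Finset.mem_union_left _ hb, hb'⟩, fun hh => ?_⟩
    obtain ⟨c, hc1, hc2⟩ := hc hh
    exact ⟨c, Finset.mem_union_left _ hc1, hc2⟩
  · obtain ⟨⟨a, ha, ha'⟩, ⟨b, hb, hb'⟩, hc⟩ := hLY x hx
    refine ⟨⟨a, Finset.mem_union_right _ ha, ha'⟩, ⟨b, Finset.mem_union_right _ hb, hb'⟩, fun hh => ?_⟩
    obtain ⟨c, hc1, hc2⟩ := hc hh
    exact ⟨c, Finset.mem_union_right _ hc1, hc2⟩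

lemma Good.empty (cov : κ → Fin 3 → I → Prop) (H : Finset I) : Good cov H ∅ :=
  ⟨0, ⟨∅, by simp, by simp⟩, by simp⟩

lemma Good.union {cov : κ → Fin 3 → I → Prop} {H X Y : Finset I}
    (hX : Good cov H X) (hY : Good cov H Y) (hd : Disjoint X Y) : Good cov H (X ∪ Y) := by
  obtain ⟨n, hn, hn'⟩ := hX
  obtain ⟨m, hm, hm'⟩ := hY
  refine ⟨n + m, hn.union hm, ?_⟩
  rw [Finset.card_union_of_disjoint hd, Finset.union_inter_distrib_right]
  have := Finset.card_union_le (X ∩ H) (Y ∩ H)
  omega

variable {cov : κ → Fin 3 → I → Prop}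

/-- three objects cover the six slots of `x` and `y` -/
def Three (cov : κ → Fin 3 → I → Prop) (x y : I) : Prop :=
  ∃ k1 k2 k3 : κ, ∀ z, (z = x ∨ z = y) → ∀ s : Fin 3, cov k1 s z ∨ cov k2 s z ∨ cov k3 s z

lemma CostLe.pair_three {H : Finset I} {x y : I} (h : Three cov x y) :
    CostLe cov H {x, y} 3 := by
  classical
  obtain ⟨k1, k2, k3, hk⟩ := h
  refine ⟨{k1, k2, k3}, Finset.card_le_three, ?_⟩
  have key : ∀ z ∈ ({x, y} : Finset I), ∀ s : Fin 3, ∃ k ∈ ({k1, k2, k3} : Finset κ), cov k s z := by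
    intro z hz s
    rcases hk z (by simpa using hz) s with h | h | h
    · exact ⟨k1, by simp, h⟩
    · exact ⟨k2, by simp, h⟩
    · exact ⟨k3, by simp, h⟩
  exact fun z hz => ⟨key z hz 0, key z hz 1, fun _ => key z hz 2⟩

lemma CostLe.pair_two {H : Finset I} {x y : I} (hab : ∀ x, ∃ k, cov k 0 x ∧ cov k 1 x)
    (hx : x ∈ H) (hy : y ∈ H) : CostLe cov H {x, y} 2 := by
  classical
  obtain ⟨k1, h1, h1'⟩ := hab x
  obtain ⟨k2, h2, h2'⟩ := hab y
  refine ⟨{k1, k2}, Finset.card_le_two, ?_⟩
  intro z hz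
  rcases (by simpa using hz : z = x ∨ z = y) with rfl | rfl
  · exact ⟨⟨k1, by simp, h1⟩, ⟨k1, by simp, h1'⟩, fun hh => absurd hx hh⟩
  · exact ⟨⟨k2, by simp, h2⟩, ⟨k2, by simp, h2'⟩, fun hh => absurd hy hh⟩

lemma Good.pair {H : Finset I} {x y : I} (hab : ∀ x, ∃ k, cov k 0 x ∧ cov k 1 x)
    (hne : x ≠ y) (h : Three cov x y) : Good cov H {x, y} := by
  by_cases hx : x ∈ H
  · by_cases hy : y ∈ H
    · refine ⟨2, CostLe.pair_two hab hx hy, ?_⟩
      have h2 := Finset.card_le_card (Finset.inter_subset_left : ({x, y} : Finset I) ∩ H ⊆ {x, y})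
      rw [Finset.card_pair hne] at *
      omega
    · refine ⟨3, CostLe.pair_three h, ?_⟩
      have h2 : (({x, y} : Finset I) ∩ H).card ≤ 1 := by
        have : ({x, y} : Finset I) ∩ H ⊆ {x} := by
          intro z hz
          simp only [Finset.mem_inter, Finset.mem_insert, Finset.mem_singleton] at hz
          rcases hz with ⟨rfl | rfl, hz⟩
          · simp
          · exact absurd hz hy
        simpa using Finset.card_le_card this
      rw [Finset.card_pair hne]
      omega
  · refine ⟨3, CostLe.pair_three h, ?_⟩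
    have h2 : (({x, y} : Finset I) ∩ H).card ≤ 1 := by
      have : ({x, y} : Finset I) ∩ H ⊆ {y} := by
        intro z hz
        simp only [Finset.mem_inter, Finset.mem_insert, Finset.mem_singleton] at hz
        rcases hz with ⟨rfl | rfl, hz⟩
        · exact absurd hz hx
        · simp
      simpa using Finset.card_le_card this
    rw [Finset.card_pair hne]
    omega

lemma Good.single {H : Finset I} {x : I} (hab : ∀ x, ∃ k, cov k 0 x ∧ cov k 1 x)
    (hx : x ∈ H) : Good cov H {x} := by
  obtain ⟨k, h1, h2⟩ := hab x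
  refine ⟨1, ⟨{k}, by simp, ?_⟩, ?_⟩
  · intro z hz
    rw [Finset.mem_singleton] at hz
    subst hz
    exact ⟨⟨k, by simp, h1⟩, ⟨k, by simp, h2⟩, fun hh => absurd hx hh⟩
  · have h2 := Finset.card_le_card (Finset.inter_subset_left : ({x} : Finset I) ∩ H ⊆ {x})
    simp only [Finset.card_singleton] at *
    omega

lemma Paired.good {H X : Finset I} {Q : I → I → Prop}
    (hab : ∀ x, ∃ k, cov k 0 x ∧ cov k 1 x)
    (hQ : ∀ x y, x ≠ y → Q x y → Three cov x y) (hX : Paired Q X) : Good cov H X := by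
  induction hX with
  | empty => exact Good.empty _ _
  | @step X x y _ hne hx hy hQxy ih =>
    have : (insert x (insert y X) : Finset I) = {x, y} ∪ X := by
      ext z; simp
    rw [this]
    refine (Good.pair hab hne (hQ _ _ hne hQxy)).union ih ?_
    rw [Finset.disjoint_left]
    intro z hz
    rcases (by simpa using hz : z = x ∨ z = y) with rfl | rfl
    · exact hx
    · exact hy

/-- even chains of consecutive items -/
lemma good_of_chain {H : Finset I} (τ : I → I)
    (hab : ∀ x, ∃ k, cov k 0 x ∧ cov k 1 x)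
    (hthree : ∀ x, τ x ≠ x → Three cov x (τ x)) :
    ∀ (n : ℕ) (L : List I), L.length = 2 * n → L.Nodup → L.IsChain (fun a b => b = τ a) →
      Good cov H L.toFinset := by
  intro n
  induction n with
  | zero =>
    intro L hL _ _
    have : L = [] := List.length_eq_zero_iff.1 (by simpa using hL)
    subst this
    simpa using Good.empty cov H
  | succ n ih =>
    intro L hL hnd hc
    match L, hL, hnd, hc with
    | a :: b :: L, hL, hnd, hc =>
      have hb : b = τ a := (List.isChain_cons_cons.1 hc).1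
      have hne : a ≠ b := by
        intro h
        rw [List.nodup_cons] at hnd
        exact hnd.1 (by simp [h])
      have hL' : L.length = 2 * n := by
        simp only [List.length_cons] at hL
        omega
      have hc' : L.IsChain (fun a b => b = τ a) := by
        have := (List.isChain_cons_cons.1 hc).2
        exact this.tail
      rw [List.nodup_cons, List.nodup_cons] at hnd
      have h1 := ih L hL' hnd.2.2 hc'
      have : (a :: b :: L).toFinset = {a, b} ∪ L.toFinset := by
        ext z; simp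
      rw [this]
      refine (Good.pair hab hne ?_).union h1 ?_
      · rw [hb]; exact hthree a (by rw [← hb]; exact hne.symm)
      · rw [Finset.disjoint_left]
        intro z hz
        rcases (by simpa using hz : z = a ∨ z = b) with rfl | rfl
        · intro hh; exact hnd.1 (by simp [List.mem_toFinset.1 hh])
        · intro hh; exact hnd.2.1 (List.mem_toFinset.1 hh)

lemma cost_of_chain {H : Finset I} (τ : I → I)
    (hthree : ∀ x, τ x ≠ x → Three cov x (τ x)) :
    ∀ (n : ℕ) (L : List I), L.length = 2 * n → L.Nodup → L.IsChain (fun a b => b = τ a) →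
      CostLe cov H L.toFinset (3 * n) := by
  intro n
  induction n with
  | zero =>
    intro L hL _ _
    have : L = [] := List.length_eq_zero_iff.1 (by simpa using hL)
    subst this
    exact ⟨∅, by simp, by simp⟩
  | succ n ih =>
    intro L hL hnd hc
    match L, hL, hnd, hc with
    | a :: b :: L, hL, hnd, hc =>
      have hb : b = τ a := (List.isChain_cons_cons.1 hc).1
      have hne : a ≠ b := by
        intro h
        rw [List.nodup_cons] at hnd
        exact hnd.1 (by simp [h])
      have hL' : L.length = 2 * n := by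
        simp only [List.length_cons] at hL
        omega
      have hc' : L.IsChain (fun a b => b = τ a) := by
        have := (List.isChain_cons_cons.1 hc).2
        exact this.tail
      rw [List.nodup_cons, List.nodup_cons] at hnd
      have h1 := ih L hL' hnd.2.2 hc'
      have : (a :: b :: L).toFinset = {a, b} ∪ L.toFinset := by
        ext z; simp
      rw [this, show 3 * (n + 1) = 3 + 3 * n by ring]
      refine (CostLe.pair_three ?_).union h1
      rw [hb]; exact hthree a (by rw [← hb]; exact hne.symm)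

lemma CostLe.single {H : Finset I} {x : I} (hab : ∀ x, ∃ k, cov k 0 x ∧ cov k 1 x)
    (hc : ∀ x, ∃ k, cov k 2 x) : CostLe cov H {x} 2 := by
  classical
  obtain ⟨k1, h1, h1'⟩ := hab x
  obtain ⟨k2, h2⟩ := hc x
  refine ⟨{k1, k2}, Finset.card_le_two, ?_⟩
  intro z hz
  rw [Finset.mem_singleton] at hz
  subst hz
  exact ⟨⟨k1, by simp, h1⟩, ⟨k1, by simp, h1'⟩, fun _ => ⟨k2, by simp, h2⟩⟩

open Equiv.Perm in
lemma good_of_no_fixed [Fintype I] {H : Finset I} (τ : Equiv.Perm I)
    (hab : ∀ x, ∃ k, cov k 0 x ∧ cov k 1 x) (hc : ∀ x, ∃ k, cov k 2 x)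
    (hthree : ∀ x, τ x ≠ x → Three cov x (τ x)) :
    ∀ (n : ℕ) (N : Finset I), N.card = n → (∀ x ∈ N, τ x ≠ x) → (∀ x, x ∈ N ↔ τ x ∈ N) →
      Good cov H N := by
  intro n
  induction n using Nat.strong_induction_on with
  | _ n ih =>
    intro N hN hfix hinv
    rcases N.eq_empty_or_nonempty with rfl | hne
    · exact Good.empty _ _
    -- choose the starting point
    obtain ⟨x, hxN, hxH⟩ : ∃ x ∈ N, x ∈ H ∨ Disjoint N H := by
      by_cases hd : Disjoint N H
      · obtain ⟨x, hx⟩ := hne
        exact ⟨x, hx, Or.inr hd⟩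
      · rw [Finset.not_disjoint_iff] at hd
        obtain ⟨x, hx, hx'⟩ := hd
        exact ⟨x, hx, Or.inl hx'⟩
    set L := toList τ x with hLdef
    have hxsupp : x ∈ τ.support := by
      rw [Equiv.Perm.mem_support]; exact hfix x hxN
    have hmem : ∀ y, y ∈ L ↔ SameCycle τ x y := by
      intro y
      rw [hLdef, mem_toList_iff]
      exact and_iff_left hxsupp
    have hpow : ∀ (m : ℕ) (y : I), y ∈ N ↔ (τ ^ m) y ∈ N := by
      intro m
      induction m with
      | zero => intro y; simp
      | succ m ihm =>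
        intro y
        rw [pow_succ', Equiv.Perm.mul_apply, ← hinv, ← ihm]
    have hzpow : ∀ (m : ℤ) (y : I), y ∈ N ↔ (τ ^ m) y ∈ N := by
      intro m y
      cases m with
      | ofNat m => exact hpow m y
      | negSucc m =>
        rw [zpow_negSucc]
        rw [hpow (m + 1) ((τ ^ (m + 1))⁻¹ y)]
        simp
    have hLN : ∀ y ∈ L, y ∈ N := by
      intro y hy
      obtain ⟨m, hm⟩ := (hmem y).1 hy
      rw [← hm]
      exact (hzpow m x).1 hxN
    have hnd : L.Nodup := nodup_toList τ x
    have hchain : L.IsChain (fun a b => b = τ a) := by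
      have : (toList τ x).IsChain (fun a b => b = τ a) := by
        rw [List.isChain_iff_getElem]
        intro i hi
        rw [getElem_toList, getElem_toList, pow_succ', Equiv.Perm.mul_apply]
      exact this
    have hlen2 : 2 ≤ L.length := by
      rw [hLdef, two_le_length_toList_iff_mem_support]; exact hxsupp
    -- good for the orbit
    have hgoodL : Good cov H L.toFinset := by
      rcases Nat.even_or_odd' L.length with ⟨m, hm | hm⟩
      · exact good_of_chain τ hab hthree m L hm hnd hchain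
      · match hL : L, hm, hnd, hchain, hlen2 with
        | a :: L', hm, hnd, hchain, hlen2 =>
          have ha : a = x := by
            have h0 := toList_getElem_zero (p := τ) (x := x) hxsupp
            have h1 : (toList τ x) = a :: L' := hL
            simp only [h1] at h0
            simpa using h0
          have hlen : L'.length = 2 * m := by
            simp only [List.length_cons] at hm; omega
          have hm1 : 1 ≤ m := by
            simp only [List.length_cons] at hlen2; omega
          rw [List.nodup_cons] at hnd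
          have hunion : (a :: L').toFinset = L'.toFinset ∪ {a} := by
            ext z; simp
          have hdisj : Disjoint L'.toFinset {a} := by
            rw [Finset.disjoint_singleton_right]
            intro hh; exact hnd.1 (List.mem_toFinset.1 hh)
          rw [hunion]
          rcases hxH with hxH | hdis
          · refine (good_of_chain τ hab hthree m L' hlen hnd.2 hchain.tail).union
              (Good.single hab ?_) hdisj
            rw [ha]; exact hxH
          · refine ⟨3 * m + 2, (cost_of_chain τ hthree m L' hlen hnd.2 hchain.tail).union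
              (CostLe.single hab hc), ?_⟩
            have hsub : (L'.toFinset ∪ {a}) ⊆ N := by
              rw [← hunion]
              intro z hz
              exact hLN z (by simpa using hz)
            have h0 : (L'.toFinset ∪ {a}) ∩ H = ∅ := by
              rw [← Finset.disjoint_iff_inter_eq_empty]
              exact Finset.disjoint_of_subset_left hsub hdis
            rw [h0, Finset.card_union_of_disjoint hdisj, List.toFinset_card_of_nodup hnd.2, hlen]
            simp
            omega
    -- the rest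
    have hsubN : L.toFinset ⊆ N := fun z hz => hLN z (List.mem_toFinset.1 hz)
    have hcard : (N \ L.toFinset).card < n := by
      rw [← hN]
      apply Finset.card_lt_card
      refine ⟨Finset.sdiff_subset, fun hh => ?_⟩
      have hx1 := hh hxN
      rw [Finset.mem_sdiff, List.mem_toFinset, hmem] at hx1
      exact hx1.2 (SameCycle.refl τ x)
    have hrest : Good cov H (N \ L.toFinset) := by
      refine ih _ hcard _ rfl ?_ ?_
      · intro y hy
        exact hfix y (Finset.mem_sdiff.1 hy).1
      · intro y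
        rw [Finset.mem_sdiff, Finset.mem_sdiff, List.mem_toFinset, List.mem_toFinset, hmem, hmem,
          ← hinv]
        rw [Equiv.Perm.sameCycle_apply_right]
    have : N = L.toFinset ∪ (N \ L.toFinset) := by
      rw [Finset.union_sdiff_of_subset hsubN]
    rw [this]
    exact hgoodL.union hrest Finset.disjoint_sdiff

/-- The combinatorial core. -/
theorem core [Fintype I] (τ : Equiv.Perm I) (h : I → I)
    (hc : ∀ x, ∃ k, cov k 2 x)
    (hthree : ∀ x, τ x ≠ x → Three cov x (τ x))
    (hh : ∀ x, ∃ k, cov k 0 x ∧ cov k 1 x ∧ cov k 2 (h x))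
    (hfix : ∀ x y, x ≠ y → τ x = x → τ y = y → h x = h y → Three cov x y) :
    ∃ K : Finset κ, 3 * K.card ≤ 5 * Fintype.card I ∧ ∀ x s, ∃ k ∈ K, cov k s x := by
  classical
  have hab : ∀ x, ∃ k, cov k 0 x ∧ cov k 1 x := fun x => by
    obtain ⟨k, h1, h2, _⟩ := hh x; exact ⟨k, h1, h2⟩
  set F : Finset I := Finset.univ.filter (fun x => τ x = x) with hF
  obtain ⟨S, hSF, hinj, hP⟩ := exists_inj_paired h F
  set H : Finset I := S.image h with hH
  have hHcard : H.card = S.card := Finset.card_image_of_injOn hinj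
  have hG1 : Good cov H (F \ S) := by
    refine Paired.good hab ?_ hP
    rintro x y hne ⟨hx, hy, hxy⟩
    exact hfix x y hne (by simpa [hF] using hx) (by simpa [hF] using hy) hxy
  have hG2 : Good cov H (Finset.univ \ F) := by
    refine good_of_no_fixed τ hab hc hthree _ _ rfl ?_ ?_
    · intro x hx; simpa [hF] using hx
    · intro x; simp [hF]
  have hdisj : Disjoint (F \ S) (Finset.univ \ F) := by
    rw [Finset.disjoint_left]
    intro z hz hz'
    exact (Finset.mem_sdiff.1 hz').2 (Finset.mem_sdiff.1 hz).1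
  have hR : (F \ S) ∪ (Finset.univ \ F) = Finset.univ \ S := by
    ext z
    simp only [Finset.mem_union, Finset.mem_sdiff, Finset.mem_univ, true_and]
    constructor
    · rintro (⟨_, h2⟩ | h2)
      · exact h2
      · exact fun hh => h2 (hSF hh)
    · intro h2
      by_cases hz : z ∈ F
      · exact Or.inl ⟨hz, h2⟩
      · exact Or.inr hz
  have hG := hG1.union hG2 hdisj
  rw [hR] at hG
  obtain ⟨n, ⟨K0, hK0, hK0'⟩, hn⟩ := hG
  choose g hg0 hg1 hg2 using hh
  choose q hq using hc
  refine ⟨K0 ∪ (S.image g ∪ (S \ H).image q), ?_, ?_⟩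
  · have c1 : (K0 ∪ (S.image g ∪ (S \ H).image q)).card ≤ n + (S.card + (S \ H).card) := by
      refine (Finset.card_union_le _ _).trans (Nat.add_le_add hK0 ?_)
      exact (Finset.card_union_le _ _).trans (Nat.add_le_add Finset.card_image_le Finset.card_image_le)
    have c2 : (S \ H).card + (S ∩ H).card = S.card := by
      rw [add_comm]; exact Finset.card_inter_add_card_sdiff S H
    have c3 : ((Finset.univ \ S) ∩ H).card + (S ∩ H).card = S.card := by
      rw [← hHcard, ← Finset.card_union_of_disjoint]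
      · congr 1
        ext z
        simp only [Finset.mem_union, Finset.mem_inter, Finset.mem_sdiff, Finset.mem_univ, true_and]
        tauto
      · rw [Finset.disjoint_left]
        intro z hz hz'
        simp only [Finset.mem_inter, Finset.mem_sdiff, Finset.mem_univ, true_and] at hz hz'
        exact hz.1 hz'.1
    have c4 : (Finset.univ \ S).card + S.card = Fintype.card I := by
      rw [Finset.card_sdiff_add_card_eq_card (Finset.subset_univ S), Finset.card_univ]
    omega
  · intro x s
    by_cases hx : x ∈ S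
    · fin_cases s
      · exact ⟨g x, by simp only [Finset.mem_union, Finset.mem_image]; exact Or.inr (Or.inl ⟨x, hx, rfl⟩), hg0 x⟩
      · exact ⟨g x, by simp only [Finset.mem_union, Finset.mem_image]; exact Or.inr (Or.inl ⟨x, hx, rfl⟩), hg1 x⟩
      · by_cases hxH : x ∈ H
        · obtain ⟨y, hy, rfl⟩ := Finset.mem_image.1 hxH
          exact ⟨g y, by simp only [Finset.mem_union, Finset.mem_image]; exact Or.inr (Or.inl ⟨y, hy, rfl⟩), hg2 y⟩
        · exact ⟨q x, by
            simp only [Finset.mem_union, Finset.mem_image]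
            exact Or.inr (Or.inr ⟨x, Finset.mem_sdiff.2 ⟨hx, hxH⟩, rfl⟩), hq x⟩
    · have hx' : x ∈ Finset.univ \ S := by simp [hx]
      obtain ⟨⟨a, ha, ha'⟩, ⟨b, hb, hb'⟩, hc'⟩ := hK0' x hx'
      fin_cases s
      · exact ⟨a, Finset.mem_union_left _ ha, ha'⟩
      · exact ⟨b, Finset.mem_union_left _ hb, hb'⟩
      · by_cases hxH : x ∈ H
        · obtain ⟨y, hy, rfl⟩ := Finset.mem_image.1 hxH
          exact ⟨g y, by simp only [Finset.mem_union, Finset.mem_image]; exact Or.inr (Or.inl ⟨y, hy, rfl⟩), hg2 y⟩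
        · obtain ⟨c, hc1, hc2⟩ := hc' hxH
          exact ⟨c, Finset.mem_union_left _ hc1, hc2⟩

end Comb

section Mat

open Set Matroid

variable {α : Type*}

lemma exists_hyperplane {M : Matroid α} {X : Set α} {e : α} (he : e ∈ M.E)
    (heX : e ∉ M.closure X) : ∃ K, IsHyperplane M K ∧ M.closure X ⊆ K ∧ e ∉ K := by
  obtain ⟨I, hI⟩ := M.exists_isBasis' X
  have hcl : M.closure I = M.closure X := hI.closure_eq_closure
  have heI : e ∉ M.closure I := by rwa [hcl]
  have heI' : e ∉ I := fun h => heI (M.mem_closure_of_mem h hI.indep.subset_ground)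
  have hins : M.Indep (insert e I) := by
    rw [hI.indep.insert_indep_iff_of_notMem heI']
    exact ⟨he, heI⟩
  obtain ⟨B, hB, hIB⟩ := hins.exists_isBase_superset
  have heB : e ∈ B := hIB (mem_insert _ _)
  refine ⟨M.closure (B \ {e}), ⟨M.isFlat_closure _, ?_⟩, ?_, hB.indep.notMem_closure_sdiff_of_mem heB⟩
  · rw [eRk_closure_eq, (hB.indep.subset sdiff_subset).eRk_eq_encard, ← hB.encard_eq_eRank]
    exact encard_sdiff_singleton_add_one heB
  · rw [← hcl]
    apply M.closure_subset_closure
    intro x hx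
    refine ⟨hIB (mem_insert_of_mem _ hx), ?_⟩
    rintro rfl
    exact heI' hx

lemma IsHyperplane.compl_isCocircuit {M : Matroid α} [M.RankFinite] {K : Set α}
    (hK : IsHyperplane M K) : M.IsCocircuit (M.E \ K) := by
  obtain ⟨hflat, hrk⟩ := hK
  obtain ⟨I, hI⟩ := M.exists_isBasis K hflat.subset_ground
  have hne : K ≠ M.E := by
    rintro rfl
    rw [eRk_ground] at hrk
    have h2 : M.eRank ≠ ⊤ := (eRank_ne_top_iff M).2 inferInstance
    have := ENat.add_one_le_iff h2 (n := M.eRank)
    rw [hrk] at this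
    exact absurd (this.1 le_rfl) (lt_irrefl _)
  obtain ⟨e, he, heK⟩ : ∃ e ∈ M.E, e ∉ K := by
    by_contra! h
    exact hne (subset_antisymm hflat.subset_ground h)
  have hcl : M.closure I = K := by rw [hI.closure_eq_closure, hflat.closure]
  have heI : e ∉ M.closure I := by rwa [hcl]
  have heI' : e ∉ I := fun h => heI (M.mem_closure_of_mem h hI.indep.subset_ground)
  have hins : M.Indep (insert e I) := by
    rw [hI.indep.insert_indep_iff_of_notMem heI']
    exact ⟨he, heI⟩
  have hbase : M.IsBase (insert e I) := by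
    refine hins.isBase_of_eRk_ge (hins.finite) ?_
    rw [hins.eRk_eq_encard, encard_insert_of_notMem heI', hI.encard_eq_eRk, hrk]
  have := hbase.compl_closure_sdiff_singleton_isCocircuit (mem_insert e I)
  rwa [insert_sdiff_of_mem _ (mem_singleton e), sdiff_singleton_eq_self heI', hcl] at this

lemma isHyperplane_of_cocircuit {M : Matroid α} {D : Set α}
    (hD : M.IsCocircuit D) : IsHyperplane M (M.E \ D) := by
  have hDE : D ⊆ M.E := hD.subset_ground
  obtain ⟨e, heD⟩ := hD.nonempty
  rw [isCocircuit_iff_minimal_compl_nonspanning, minimal_iff_forall_ssubset] at hD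
  obtain ⟨hns, hmin⟩ := hD
  have hspan : ∀ f ∈ D, M.closure (insert f (M.E \ D)) = M.E := by
    intro f hf
    have h1 : D \ {f} ⊂ D := sdiff_singleton_ssubset.2 hf
    have h2 := hmin h1
    rw [not_not] at h2
    have h3 : M.E \ (D \ {f}) = insert f (M.E \ D) := by
      ext x
      simp only [mem_sdiff, mem_singleton_iff, mem_insert_iff, not_and, not_not]
      constructor
      · rintro ⟨hx, h⟩
        by_cases hxD : x ∈ D
        · exact Or.inl (h hxD)
        · exact Or.inr ⟨hx, hxD⟩
      · rintro (rfl | ⟨hx, h⟩)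
        · exact ⟨hDE hf, fun _ => rfl⟩
        · exact ⟨hx, fun hh => absurd hh h⟩
    rw [h3] at h2
    exact h2.closure_eq
  have hnotcl : ∀ f ∈ D, f ∉ M.closure (M.E \ D) := by
    intro f hf hfc
    apply hns
    rw [spanning_iff_closure_eq]
    have := hspan f hf
    rwa [closure_insert_eq_of_mem_closure hfc] at this
  have hflat : M.IsFlat (M.E \ D) := by
    rw [isFlat_iff_closure_eq]
    refine subset_antisymm ?_ (M.subset_closure _ sdiff_subset)
    intro f hf
    refine ⟨M.closure_subset_ground _ hf, fun hfD => hnotcl f hfD hf⟩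
  refine ⟨hflat, ?_⟩
  obtain ⟨I, hI⟩ := M.exists_isBasis (M.E \ D) sdiff_subset
  have heI : e ∉ M.closure I := by rw [hI.closure_eq_closure]; exact hnotcl e heD
  have heI' : e ∉ I := fun h => heI (M.mem_closure_of_mem h hI.indep.subset_ground)
  have hins : M.Indep (insert e I) := by
    rw [hI.indep.insert_indep_iff_of_notMem heI']
    exact ⟨hDE heD, heI⟩
  have hbase : M.IsBase (insert e I) := by
    rw [isBase_iff_indep_closure_eq]
    refine ⟨hins, ?_⟩
    rw [← hspan e heD]
    rw [← closure_insert_closure_eq_closure_insert, hI.closure_eq_closure,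
      closure_insert_closure_eq_closure_insert]
  rw [← hbase.encard_eq_eRank, encard_insert_of_notMem heI', hI.encard_eq_eRk]

/-- Two circuits that meet: any `p` in the first and `q` in the second lie in a common circuit
inside the union. -/
lemma exists_circuit_mem_mem {N : Matroid α} :
    ∀ (n : ℕ) (C1 C2 : Set α) (p q : α), N.IsCircuit C1 → N.IsCircuit C2 →
      (C1 ∪ C2).Finite → (C1 ∪ C2).ncard = n → (C1 ∩ C2).Nonempty → p ∈ C1 → q ∈ C2 →
      ∃ C ⊆ C1 ∪ C2, N.IsCircuit C ∧ p ∈ C ∧ q ∈ C := by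
  intro n
  induction n using Nat.strong_induction_on with
  | _ n ih =>
    intro C1 C2 p q h1 h2 hfin hn hne hp hq
    by_cases hq1 : q ∈ C1
    · exact ⟨C1, subset_union_left, h1, hp, hq1⟩
    by_cases hp2 : p ∈ C2
    · exact ⟨C2, subset_union_right, h2, hp2, hq⟩
    obtain ⟨v, hv1, hv2⟩ := hne
    obtain ⟨C3, hC3, h3, hp3⟩ := h1.strong_elimination h2 hv1 hv2 hp hp2
    obtain ⟨C4, hC4, h4, hq4⟩ := h2.strong_elimination h1 hv2 hv1 hq hq1
    rw [union_comm C2 C1] at hC4
    have hC3' : C3 ⊆ C1 ∪ C2 := hC3.trans sdiff_subset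
    have hC4' : C4 ⊆ C1 ∪ C2 := hC4.trans sdiff_subset
    -- C3 meets C2 \ C1
    have hC3n : ¬ C3 ⊆ C1 := by
      intro h
      have := h3.eq_of_subset_isCircuit h1 h
      rw [← this] at hv1
      exact (hC3 hv1).2 rfl
    have hC4n : ¬ C4 ⊆ C2 := by
      intro h
      have := h4.eq_of_subset_isCircuit h2 h
      rw [← this] at hv2
      exact (hC4 hv2).2 rfl
    obtain ⟨x, hx3, hx1⟩ := not_subset.1 hC3n
    obtain ⟨y, hy4, hy2⟩ := not_subset.1 hC4n
    have hx2 : x ∈ C2 := (hC3' hx3).resolve_left hx1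
    have hy1 : y ∈ C1 := (hC4' hy4).resolve_right hy2
    have hlt : ∀ S : Set α, S ⊆ C1 ∪ C2 → S ≠ C1 ∪ C2 → S.ncard < n := by
      intro S hS hSne
      rw [← hn]
      exact ncard_lt_ncard (hS.ssubset_of_ne hSne) hfin
    by_cases e1 : C3 ∪ C2 = C1 ∪ C2
    · by_cases e2 : C1 ∪ C4 = C1 ∪ C2
      · -- then y ∈ C3 ∩ C4
        have hy3 : y ∈ C3 := by
          have : y ∈ C3 ∪ C2 := by rw [e1]; exact Or.inl hy1
          exact this.resolve_right hy2
        have hsub : C3 ∪ C4 ⊆ C1 ∪ C2 := union_subset hC3' hC4'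
        have hne' : C3 ∪ C4 ≠ C1 ∪ C2 := by
          intro h
          have : v ∈ C3 ∪ C4 := by rw [h]; exact Or.inl hv1
          rcases this with h | h
          · exact (hC3 h).2 rfl
          · exact (hC4 h).2 rfl
        obtain ⟨C, hC, hcirc, hpC, hqC⟩ := ih _ (hlt _ hsub hne') C3 C4 p q h3 h4
          (hfin.subset hsub) rfl ⟨y, hy3, hy4⟩ hp3 hq4
        exact ⟨C, hC.trans hsub, hcirc, hpC, hqC⟩
      · have hsub : C1 ∪ C4 ⊆ C1 ∪ C2 := union_subset subset_union_left hC4'
        obtain ⟨C, hC, hcirc, hpC, hqC⟩ := ih _ (hlt _ hsub e2) C1 C4 p q h1 h4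
          (hfin.subset hsub) rfl ⟨y, hy1, hy4⟩ hp hq4
        exact ⟨C, hC.trans hsub, hcirc, hpC, hqC⟩
    · have hsub : C3 ∪ C2 ⊆ C1 ∪ C2 := union_subset hC3' subset_union_right
      obtain ⟨C, hC, hcirc, hpC, hqC⟩ := ih _ (hlt _ hsub e1) C3 C2 p q h3 h2
        (hfin.subset hsub) rfl ⟨x, hx3, hx2⟩ hp3 hq
      exact ⟨C, hC.trans hsub, hcirc, hpC, hqC⟩

lemma exists_hyperplane_avoid {M : Matroid α} (hfin : M.E.Finite) {H1 H2 : Set α} {v p q : α}
    (h1 : IsHyperplane M H1) (h2 : IsHyperplane M H2) (hv : v ∈ M.E) (hv1 : v ∉ H1) (hv2 : v ∉ H2)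
    (hp : p ∈ M.E) (hq : q ∈ M.E) (hp1 : p ∉ H1) (hq2 : q ∉ H2) :
    ∃ K, IsHyperplane M K ∧ H1 ∩ H2 ⊆ K ∧ p ∉ K ∧ q ∉ K := by
  have : M.Finite := ⟨hfin⟩
  obtain ⟨D, hD, hcirc, hpD, hqD⟩ := exists_circuit_mem_mem (N := M✶) _ (M.E \ H1) (M.E \ H2) p q
    h1.compl_isCocircuit h2.compl_isCocircuit
    (hfin.subset (union_subset sdiff_subset sdiff_subset)) rfl ⟨v, ⟨hv, hv1⟩, ⟨hv, hv2⟩⟩
    ⟨hp, hp1⟩ ⟨hq, hq2⟩
  refine ⟨M.E \ D, isHyperplane_of_cocircuit hcirc, ?_, fun h => h.2 hpD, fun h => h.2 hqD⟩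
  rintro x ⟨hx1, hx2⟩
  refine ⟨h1.1.subset_ground hx1, fun hxD => ?_⟩
  rcases hD hxD with h | h
  · exact h.2 hx1
  · exact h.2 hx2

/-- An internal presentation of a complete flag by a sequence of flats and elements. -/
structure Fl (M : Matroid α) (d : ℕ) where
  f : ℕ → Set α
  e : ℕ → α
  zero : f 0 = M.closure ∅
  mem : ∀ i < d, e i ∈ M.E
  notMem : ∀ i < d, e i ∉ f i
  succ : ∀ i < d, f (i + 1) = M.closure (insert (e i) (f i))
  top : f d = M.E

variable {M : Matroid α} {d : ℕ}

lemma Fl.isFlat (A : Fl M d) {i : ℕ} (hi : i ≤ d) : M.IsFlat (A.f i) := by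
  cases i with
  | zero => rw [A.zero]; exact M.isFlat_closure _
  | succ i => rw [A.succ i (by omega)]; exact M.isFlat_closure _

lemma Fl.subset_ground (A : Fl M d) {i : ℕ} (hi : i ≤ d) : A.f i ⊆ M.E :=
  (A.isFlat hi).subset_ground

lemma Fl.subset_succ (A : Fl M d) {i : ℕ} (hi : i < d) : A.f i ⊆ A.f (i + 1) := by
  rw [A.succ i hi]
  intro x hx
  exact M.mem_closure_of_mem (mem_insert_of_mem _ hx)
    (insert_subset (A.mem i hi) (A.subset_ground hi.le))

lemma Fl.mem_succ (A : Fl M d) {i : ℕ} (hi : i < d) : A.e i ∈ A.f (i + 1) := by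
  rw [A.succ i hi]
  exact M.mem_closure_of_mem (mem_insert _ _)
    (insert_subset (A.mem i hi) (A.subset_ground hi.le))

lemma Fl.mono (A : Fl M d) {i j : ℕ} (hij : i ≤ j) (hj : j ≤ d) : A.f i ⊆ A.f j := by
  induction j, hij using Nat.le_induction with
  | base => exact Subset.rfl
  | succ j hij ih => exact (ih (by omega)).trans (A.subset_succ (by omega))

/-- adding the next flat of `C` to `X` is adding the next element -/
lemma Fl.closure_union_succ (C : Fl M d) (X : Set α) {c : ℕ} (hc : c < d) :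
    M.closure (X ∪ C.f (c + 1)) = M.closure (insert (C.e c) (X ∪ C.f c)) := by
  rw [C.succ c hc, closure_union_closure_right_eq, union_insert]

lemma Fl.exists_label (C : Fl M d) {X : Set α} {e : α} (he : e ∈ M.E) (heX : e ∉ M.closure X) :
    ∃ c < d, e ∉ M.closure (X ∪ C.f c) ∧ e ∈ M.closure (X ∪ C.f (c + 1)) := by
  classical
  have hex : ∃ n, e ∈ M.closure (X ∪ C.f n) := by
    refine ⟨d, ?_⟩
    rw [C.top]
    rw [← closure_inter_ground, union_inter_distrib_right, inter_self]
    exact M.mem_closure_of_mem (Or.inr he) (union_subset inter_subset_right Subset.rfl)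
  have hd : Nat.find hex ≤ d := Nat.find_min' hex (by
    rw [C.top]
    rw [← closure_inter_ground, union_inter_distrib_right, inter_self]
    exact M.mem_closure_of_mem (Or.inr he) (union_subset inter_subset_right Subset.rfl))
  have h0 : Nat.find hex ≠ 0 := by
    intro h
    have := Nat.find_spec hex
    rw [h, C.zero, closure_union_closure_right_eq, union_empty] at this
    exact heX this
  obtain ⟨c, hc⟩ := Nat.exists_eq_succ_of_ne_zero h0
  refine ⟨c, by omega, Nat.find_min hex (by omega), ?_⟩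
  have := Nat.find_spec hex
  rwa [hc] at this

/-- Jordan-Hölder relation between the levels of two flags. -/
def JH (A B : Fl M d) (i j : ℕ) : Prop :=
  A.e i ∉ M.closure (A.f i ∪ B.f j) ∧ A.e i ∈ M.closure (A.f i ∪ B.f (j + 1))

lemma exists_JH (A B : Fl M d) {i : ℕ} (hi : i < d) : ∃ j < d, JH A B i j :=
  B.exists_label (A.mem i hi) (by rw [(A.isFlat hi.le).closure]; exact A.notMem i hi)

lemma JH.unique {A B : Fl M d} {i j j' : ℕ} (hj : j < d) (hj' : j' < d)
    (h : JH A B i j) (h' : JH A B i j') : j = j' := by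
  by_contra hne
  wlog hlt : j < j' generalizing j j'
  · exact this hj' hj h' h (fun h => hne h.symm) (by omega)
  apply h'.1
  refine M.closure_subset_closure (union_subset_union_right _ ?_) h.2
  exact B.mono (by omega) hj'.le

lemma JH.symm {A B : Fl M d} {i j : ℕ} (hi : i < d) (hj : j < d) (h : JH A B i j) :
    JH B A j i := by
  have h2 := h.2
  rw [B.closure_union_succ _ hj] at h2
  have hex := closure_exchange ⟨h2, h.1⟩
  refine ⟨?_, ?_⟩
  · rw [union_comm]; exact hex.2
  · rw [A.closure_union_succ _ hi, union_comm]; exact hex.1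

/-- `K` covers level `i` of the flag `A`. -/
def Cov (K : Set α) (A : Fl M d) (i : ℕ) : Prop :=
  IsHyperplane M K ∧ A.f i ⊆ K ∧ A.e i ∉ K

lemma JH.exists_cov {A B : Fl M d} {i j : ℕ} (hi : i < d) (hj : j < d) (h : JH A B i j)
    (C : Fl M d) : ∃ c < d, (A.e i ∉ M.closure (A.f i ∪ B.f j ∪ C.f c) ∧
      A.e i ∈ M.closure (A.f i ∪ B.f j ∪ C.f (c + 1))) ∧
      ∃ K, Cov K A i ∧ Cov K B j ∧ Cov K C c := by
  obtain ⟨c, hc, hc1, hc2⟩ := C.exists_label (A.mem i hi) h.1
  obtain ⟨K, hK, hKX, heK⟩ := exists_hyperplane (A.mem i hi) hc1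
  have hsub : A.f i ∪ B.f j ∪ C.f c ⊆ M.E :=
    union_subset (union_subset (A.subset_ground hi.le) (B.subset_ground hj.le))
      (C.subset_ground hc.le)
  have hX : A.f i ∪ B.f j ∪ C.f c ⊆ K := (M.subset_closure _ hsub).trans hKX
  refine ⟨c, hc, ⟨hc1, hc2⟩, K, ⟨hK, ?_, heK⟩, ⟨hK, ?_, ?_⟩, ⟨hK, ?_, ?_⟩⟩
  · exact (subset_union_left.trans subset_union_left).trans hX
  · exact (subset_union_right.trans subset_union_left).trans hX
  · intro hb
    apply heK
    have h2 := h.2
    rw [B.closure_union_succ _ hj] at h2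
    have : insert (B.e j) (A.f i ∪ B.f j) ⊆ K := insert_subset hb (subset_union_left.trans hX)
    have h3 := M.closure_subset_closure this h2
    rwa [hK.1.closure] at h3
  · exact subset_union_right.trans hX
  · intro hb
    apply heK
    have h2 := hc2
    rw [C.closure_union_succ _ hc] at h2
    have : insert (C.e c) (A.f i ∪ B.f j ∪ C.f c) ⊆ K := insert_subset hb hX
    have h3 := M.closure_subset_closure this h2
    rwa [hK.1.closure] at h3

lemma JH.exists_cov_two {A B : Fl M d} {i j : ℕ} (hi : i < d) (hj : j < d) (h : JH A B i j) :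
    ∃ K, Cov K A i ∧ Cov K B j := by
  obtain ⟨c, hc, _, K, h1, h2, _⟩ := h.exists_cov hi hj A
  exact ⟨K, h1, h2⟩

/-- The pairing lemma. -/
lemma pairing (hfin : M.E.Finite) {A B C : Fl M d} {i j i' j' c : ℕ} (hi' : i' < d)
    (hii : i < i') (hj : j < d) (hj' : j' < d) (hc : c < d) (hne : j ≠ j')
    (h' : JH A B i' j')
    (l1 : A.e i ∉ M.closure (A.f i ∪ B.f j ∪ C.f c))
    (l2 : A.e i ∈ M.closure (A.f i ∪ B.f j ∪ C.f (c + 1)))
    (l1' : A.e i' ∉ M.closure (A.f i' ∪ B.f j' ∪ C.f c))
    (l2' : A.e i' ∈ M.closure (A.f i' ∪ B.f j' ∪ C.f (c + 1))) :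
    ∃ K, Cov K A i ∧ Cov K B j' := by
  have hi : i < d := by omega
  -- first `j' < j`
  have hjj : j' < j := by
    by_contra hcon
    have hjj : j < j' := by omega
    apply l1'
    -- `C.e c` lies in the closure of `A.f i' ∪ B.f j' ∪ C.f c`
    rw [C.closure_union_succ _ hc] at l2 l2'
    have hex := closure_exchange ⟨l2, l1⟩
    have hsub : insert (A.e i) (A.f i ∪ B.f j ∪ C.f c) ⊆ A.f i' ∪ B.f j' ∪ C.f c := by
      refine insert_subset (Or.inl (Or.inl ?_)) (union_subset_union_left _ (union_subset_union ?_ ?_))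
      · exact A.mono (by omega : i + 1 ≤ i') hi'.le (A.mem_succ hi)
      · exact A.mono hii.le hi'.le
      · exact B.mono hjj.le hj'.le
    have h3 := M.closure_subset_closure hsub hex.1
    rwa [closure_insert_eq_of_mem_closure h3] at l2'
  -- the two hyperplanes
  obtain ⟨H1, hH1, hX1, he1⟩ := exists_hyperplane (A.mem i hi) l1
  have hsub1 : A.f i ∪ B.f j ∪ C.f c ⊆ H1 :=
    (M.subset_closure _ (union_subset (union_subset (A.subset_ground hi.le)
      (B.subset_ground hj.le)) (C.subset_ground hc.le))).trans hX1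
  obtain ⟨H2, hH2, hX2, he2⟩ := exists_hyperplane (A.mem i' hi') l1'
  have hsub2 : A.f i' ∪ B.f j' ∪ C.f c ⊆ H2 :=
    (M.subset_closure _ (union_subset (union_subset (A.subset_ground hi'.le)
      (B.subset_ground hj'.le)) (C.subset_ground hc.le))).trans hX2
  have hv1 : C.e c ∉ H1 := by
    intro hb
    apply he1
    rw [C.closure_union_succ _ hc] at l2
    have h3 := M.closure_subset_closure (insert_subset hb hsub1) l2
    rwa [hH1.1.closure] at h3
  have hv2 : C.e c ∉ H2 := by
    intro hb
    apply he2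
    rw [C.closure_union_succ _ hc] at l2'
    have h3 := M.closure_subset_closure (insert_subset hb hsub2) l2'
    rwa [hH2.1.closure] at h3
  have hq2 : B.e j' ∉ H2 := by
    intro hb
    apply he2
    have h2 := h'.2
    rw [B.closure_union_succ _ hj'] at h2
    have h3 := M.closure_subset_closure (insert_subset hb (subset_union_left.trans hsub2)) h2
    rwa [hH2.1.closure] at h3
  obtain ⟨K, hK, hsubK, hpK, hqK⟩ := exists_hyperplane_avoid hfin hH1 hH2 (C.mem c hc) hv1 hv2
    (A.mem i hi) (B.mem j' hj') he1 hq2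
  refine ⟨K, ⟨hK, ?_, hpK⟩, ⟨hK, ?_, hqK⟩⟩
  · refine Subset.trans (subset_inter ?_ ?_) hsubK
    · exact (subset_union_left.trans subset_union_left).trans hsub1
    · exact (A.mono hii.le hi'.le).trans ((subset_union_left.trans subset_union_left).trans hsub2)
  · refine Subset.trans (subset_inter ?_ ?_) hsubK
    · exact (B.mono hjj.le hj.le).trans ((subset_union_right.trans subset_union_left).trans hsub1)
    · exact (subset_union_right.trans subset_union_left).trans hsub2

/-- The Jordan-Hölder bijection. -/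
lemma exists_perm (A B : Fl M d) : ∃ σ : Equiv.Perm (Fin d), ∀ i : Fin d, JH A B i (σ i) := by
  classical
  choose! s hs1 hs2 using fun (i : ℕ) (hi : i < d) => exists_JH A B hi
  choose! t ht1 ht2 using fun (i : ℕ) (hi : i < d) => exists_JH B A hi
  refine ⟨⟨fun i => ⟨s i, hs1 i i.2⟩, fun j => ⟨t j, ht1 j j.2⟩, ?_, ?_⟩, ?_⟩
  · intro i
    ext
    exact (ht2 (s i) (hs1 i i.2)).unique (ht1 _ (hs1 i i.2)) i.2 ((hs2 i i.2).symm i.2 (hs1 i i.2))
  · intro j
    ext
    exact (hs2 (t j) (ht1 j j.2)).unique (hs1 _ (ht1 j j.2)) j.2 ((ht2 j j.2).symm j.2 (ht1 j j.2))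
  · intro i
    exact hs2 i i.2

/-- Two flags: `d` hyperplanes. -/
lemma two_flags (A B : Fl M d) : ∃ K : Finset (Set α), K.card ≤ d ∧
    ∀ i < d, (∃ k ∈ K, Cov k A i) ∧ (∃ k ∈ K, Cov k B i) := by
  classical
  obtain ⟨σ, hσ⟩ := exists_perm A B
  choose g hg1 hg2 using fun i : Fin d => (hσ i).exists_cov_two i.2 (σ i).2
  refine ⟨Finset.univ.image g, Finset.card_image_le.trans (by simp), ?_⟩
  intro i hi
  refine ⟨⟨g ⟨i, hi⟩, by simp, hg1 ⟨i, hi⟩⟩, ⟨g (σ.symm ⟨i, hi⟩), by simp, ?_⟩⟩
  have := hg2 (σ.symm ⟨i, hi⟩)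
  simpa using this

/-- Three flags: `⌊5d/3⌋` hyperplanes. -/
lemma three_flags (hfin : M.E.Finite) (A B C : Fl M d) :
    ∃ K : Finset (Set α), 3 * K.card ≤ 5 * d ∧
      ∀ i < d, (∃ k ∈ K, Cov k A i) ∧ (∃ k ∈ K, Cov k B i) ∧ (∃ k ∈ K, Cov k C i) := by
  classical
  obtain ⟨σ, hσ⟩ := exists_perm A B
  obtain ⟨ρ, hρ⟩ := exists_perm B C
  obtain ⟨γ, hγ⟩ := exists_perm C A
  -- labels
  have hlab : ∀ i : Fin d, ∃ c : Fin d, (A.e i ∉ M.closure (A.f i ∪ B.f (σ i) ∪ C.f c) ∧
      A.e i ∈ M.closure (A.f i ∪ B.f (σ i) ∪ C.f (c + 1))) ∧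
      ∃ K, Cov K A i ∧ Cov K B (σ i) ∧ Cov K C c := by
    intro i
    obtain ⟨c, hc, h1, h2⟩ := (hσ i).exists_cov i.2 (σ i).2 C
    exact ⟨⟨c, hc⟩, h1, h2⟩
  choose c hc1 hc2 using hlab
  -- cov relation
  let cov : Set α → Fin 3 → Fin d → Prop := fun K s i =>
    (s = 0 → Cov K A i) ∧ (s = 1 → Cov K B (σ i)) ∧ (s = 2 → Cov K C (ρ (σ i)))
  have cov0 : ∀ K i, cov K 0 i ↔ Cov K A i := fun K i => by simp [cov]
  have cov1 : ∀ K i, cov K 1 i ↔ Cov K B (σ i) := fun K i => by simp [cov]
  have cov2 : ∀ K i, cov K 2 i ↔ Cov K C (ρ (σ i)) := fun K i => by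
    constructor
    · intro h; exact h.2.2 rfl
    · intro h; exact ⟨fun hh => absurd hh (by decide), fun hh => absurd hh (by decide), fun _ => h⟩
  have hcore : ∃ K : Finset (Set α), 3 * K.card ≤ 5 * Fintype.card (Fin d) ∧
      ∀ x s, ∃ k ∈ K, cov k s x := by
    refine core (cov := cov) (σ.trans (ρ.trans γ))
      (fun i => σ.symm (ρ.symm (c i))) ?_ ?_ ?_ ?_
    · intro x
      obtain ⟨k, _, hk⟩ := (hρ (σ x)).exists_cov_two (σ x).2 (ρ (σ x)).2
      exact ⟨k, (cov2 _ _).2 hk⟩
    · -- consecutive items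
      intro x hx
      obtain ⟨k1, h10, h11⟩ := (hσ x).exists_cov_two x.2 (σ x).2
      obtain ⟨k2, h22, h20⟩ := (hγ (ρ (σ x))).exists_cov_two (ρ (σ x)).2 (γ (ρ (σ x))).2
      set y : Fin d := γ (ρ (σ x)) with hy
      obtain ⟨k3, h31, h32⟩ := (hρ (σ y)).exists_cov_two (σ y).2 (ρ (σ y)).2
      refine ⟨k1, k2, k3, ?_⟩
      intro z hz s
      have hyy : (σ.trans (ρ.trans γ)) x = y := rfl
      rw [hyy] at hz
      rcases hz with rfl | rfl
      · fin_cases s
        · exact Or.inl ((cov0 _ _).2 h10)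
        · exact Or.inl ((cov1 _ _).2 h11)
        · exact Or.inr (Or.inl ((cov2 _ _).2 h22))
      · fin_cases s
        · exact Or.inr (Or.inl ((cov0 _ _).2 h20))
        · exact Or.inr (Or.inr ((cov1 _ _).2 h31))
        · exact Or.inr (Or.inr ((cov2 _ _).2 h32))
    · intro x
      obtain ⟨k, h0, h1, h2⟩ := hc2 x
      refine ⟨k, (cov0 _ _).2 h0, (cov1 _ _).2 h1, (cov2 _ _).2 ?_⟩
      simpa using h2
    · -- fixed items with equal label
      intro x y hne hx hy hxy
      wlog hlt : x < y generalizing x y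
      · obtain ⟨k1, k2, k3, hk⟩ := this y x hne.symm hy hx hxy.symm
          (lt_of_le_of_ne (not_lt.1 hlt) hne.symm)
        exact ⟨k1, k2, k3, fun z hz s => hk z hz.symm s⟩
      have hcc : c x = c y := by
        have := congrArg σ hxy
        simp only [Equiv.apply_symm_apply] at this
        exact ρ.symm.injective this
      have hx' : γ (ρ (σ x)) = x := hx
      have hy' : γ (ρ (σ y)) = y := hy
      obtain ⟨k1, h10, h11⟩ := pairing hfin (i := x) (j := σ x) (i' := y) (j' := σ y) (c := c x)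
        y.2 hlt (σ x).2 (σ y).2 (c x).2
        (fun h => hne (σ.injective (Fin.ext h))) (hσ y) (hc1 x).1 (hc1 x).2
        (by rw [hcc]; exact (hc1 y).1) (by rw [hcc]; exact (hc1 y).2)
      obtain ⟨k2, h21, h22⟩ := (hρ (σ x)).exists_cov_two (σ x).2 (ρ (σ x)).2
      obtain ⟨k3, h32, h30⟩ := (hγ (ρ (σ y))).exists_cov_two (ρ (σ y)).2 (γ (ρ (σ y))).2
      rw [hy'] at h30
      refine ⟨k1, k2, k3, ?_⟩
      intro z hz s
      rcases hz with rfl | rfl
      · fin_cases s
        · exact Or.inl ((cov0 _ _).2 h10)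
        · exact Or.inr (Or.inl ((cov1 _ _).2 h21))
        · exact Or.inr (Or.inl ((cov2 _ _).2 h22))
      · fin_cases s
        · exact Or.inr (Or.inr ((cov0 _ _).2 h30))
        · exact Or.inl ((cov1 _ _).2 h11)
        · exact Or.inr (Or.inr ((cov2 _ _).2 h32))
  obtain ⟨K, hK, hK'⟩ := hcore
  refine ⟨K, by simpa using hK, ?_⟩
  intro i hi
  refine ⟨?_, ?_, ?_⟩
  · obtain ⟨k, hk, hk'⟩ := hK' ⟨i, hi⟩ 0
    exact ⟨k, hk, (cov0 _ _).1 hk'⟩
  · obtain ⟨k, hk, hk'⟩ := hK' (σ.symm ⟨i, hi⟩) 1
    exact ⟨k, hk, by simpa using (cov1 _ _).1 hk'⟩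
  · obtain ⟨k, hk, hk'⟩ := hK' (σ.symm (ρ.symm ⟨i, hi⟩)) 2
    exact ⟨k, hk, by simpa using (cov2 _ _).1 hk'⟩

/-- Any number of flags. -/
lemma many_flags (hfin : M.E.Finite) : ∀ (m : ℕ) (A : Fin m → Fl M d),
    ∃ K : Finset (Set α), (∀ j, ∀ i < d, ∃ k ∈ K, Cov k (A j) i) ∧
      (m = 1 → K.card ≤ d) ∧ (Even m → 2 * K.card ≤ m * d) ∧
      (Odd m → m ≠ 1 → 2 * K.card ≤ (m - 1) * d + 2 * (2 * d / 3)) := by
  classical
  intro m
  induction m using Nat.strong_induction_on with
  | _ m ih =>
    intro A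
    match m, ih, A with
    | 0, _, A => exact ⟨∅, fun j => j.elim0, by simp, by simp, by simp⟩
    | 1, _, A =>
      obtain ⟨K, hK, hK'⟩ := two_flags (A 0) (A 0)
      refine ⟨K, fun j i hi => ?_, fun _ => hK, by simp, fun _ h => absurd rfl h⟩
      rw [Subsingleton.elim j 0]
      exact (hK' i hi).1
    | 2, _, A =>
      obtain ⟨K, hK, hK'⟩ := two_flags (A 0) (A 1)
      refine ⟨K, fun j i hi => ?_, by simp, fun _ => by omega, fun h => absurd h (by decide)⟩
      fin_cases j
      · exact (hK' i hi).1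
      · exact (hK' i hi).2
    | 3, _, A =>
      obtain ⟨K, hK, hK'⟩ := three_flags hfin (A 0) (A 1) (A 2)
      refine ⟨K, fun j i hi => ?_, by simp, fun h => absurd h (by decide), fun _ _ => ?_⟩
      · fin_cases j
        · exact (hK' i hi).1
        · exact (hK' i hi).2.1
        · exact (hK' i hi).2.2
      · simp only [show 3 - 1 = 2 by rfl]
        omega
    | (m + 4), ih, A =>
      obtain ⟨K, hK, hK'⟩ := two_flags (A ⟨m + 2, by omega⟩) (A ⟨m + 3, by omega⟩)
      obtain ⟨L, hL, hL1, hL2, hL3⟩ := ih (m + 2) (by omega) (fun j => A ⟨j, by omega⟩)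
      have hcard := Finset.card_union_le L K
      refine ⟨L ∪ K, fun j i hi => ?_, by omega, fun h => ?_, fun h _ => ?_⟩
      · by_cases h1 : (j : ℕ) < m + 2
        · obtain ⟨k, hk, hk'⟩ := hL ⟨j, h1⟩ i hi
          exact ⟨k, Finset.mem_union_left _ hk, hk'⟩
        · by_cases h2 : (j : ℕ) = m + 2
          · obtain ⟨k, hk, hk'⟩ := (hK' i hi).1
            refine ⟨k, Finset.mem_union_right _ hk, ?_⟩
            have : j = ⟨m + 2, by omega⟩ := Fin.ext h2
            rwa [this]
          · obtain ⟨k, hk, hk'⟩ := (hK' i hi).2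
            refine ⟨k, Finset.mem_union_right _ hk, ?_⟩
            have : j = ⟨m + 3, by omega⟩ := Fin.ext (by have := j.2; simp only; omega)
            rwa [this]
      · have hev : Even (m + 2) := by
          rw [Nat.even_iff] at h ⊢; omega
        have h1 := hL2 hev
        have h2 : (m + 4) * d = (m + 2) * d + 2 * d := by ring
        omega
      · have hodd : Odd (m + 2) := by
          rw [Nat.odd_iff] at h ⊢; omega
        have h1 := hL3 hodd (by omega)
        have h2 : (m + 4 - 1) * d = (m + 2 - 1) * d + 2 * d := by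
          have e1 : m + 4 - 1 = m + 3 := by omega
          have e2 : m + 2 - 1 = m + 1 := by omega
          rw [e1, e2]; ring
        omega

lemma exists_fl [M.Finite] (hd : 1 ≤ d) {F : Fin (d + 1) → Set α} (hF : IsCompleteFlag M d F) :
    ∃ A : Fl M d, ∀ i : Fin (d + 1), A.f i = F i := by
  classical
  obtain ⟨hflat, hrk, hmono, htop⟩ := hF
  have hex : ∀ i, i < d → ∃ x, ∀ (h1 : i < d + 1) (h2 : i + 1 < d + 1),
      x ∈ F ⟨i + 1, h2⟩ ∧ x ∉ F ⟨i, h1⟩ := by
    intro i hi
    have h1 : i < d + 1 := by omega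
    have h2 : i + 1 < d + 1 := by omega
    have hlt : F ⟨i, h1⟩ ⊂ F ⟨i + 1, h2⟩ := hmono (by simp [Fin.lt_def])
    obtain ⟨x, hx, hx'⟩ := exists_of_ssubset hlt
    exact ⟨x, fun _ _ => ⟨hx, hx'⟩⟩
  have hne : ∀ i, ∃ x, ∀ (_ : i < d) (h1 : i < d + 1) (h2 : i + 1 < d + 1),
      x ∈ F ⟨i + 1, h2⟩ ∧ x ∉ F ⟨i, h1⟩ := by
    intro i
    by_cases hi : i < d
    · obtain ⟨x, hx⟩ := hex i hi
      exact ⟨x, fun _ => hx⟩
    · obtain ⟨x, _⟩ := hex 0 hd
      exact ⟨x, fun h => absurd h hi⟩
  choose e he using hne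
  refine ⟨⟨fun i => if h : i < d + 1 then F ⟨i, h⟩ else M.E, e, ?_, ?_, ?_, ?_, ?_⟩, ?_⟩
  · -- zero
    have h0 : (0 : ℕ) < d + 1 := by omega
    rw [dif_pos h0]
    have hr := hrk ⟨0, h0⟩
    simp only [Nat.cast_zero] at hr
    apply subset_antisymm
    · exact (eRk_eq_zero_iff (hflat _).subset_ground).1 hr
    · have := M.closure_subset_closure (empty_subset (F ⟨0, h0⟩))
      rwa [(hflat _).closure] at this
  · intro i hi
    exact (hflat _).subset_ground (he i hi (by omega) (by omega)).1
  · intro i hi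
    rw [dif_pos (by omega : i < d + 1)]
    exact (he i hi (by omega) (by omega)).2
  · intro i hi
    have h1 : i < d + 1 := by omega
    have h2 : i + 1 < d + 1 := by omega
    rw [dif_pos h1, dif_pos h2]
    have hsub : insert (e i) (F ⟨i, h1⟩) ⊆ F ⟨i + 1, h2⟩ :=
      insert_subset (he i hi h1 h2).1 (hmono.monotone (by simp [Fin.le_def]))
    have heE : e i ∈ M.E := (hflat _).subset_ground (he i hi h1 h2).1
    have hcl : M.closure (insert (e i) (F ⟨i, h1⟩)) = M.closure (F ⟨i + 1, h2⟩) := by
      apply IsRkFinite.closure_eq_closure_of_subset_of_eRk_ge_eRk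
      · exact M.isRkFinite_set _
      · exact hsub
      · rw [eRk_insert_eq_add_one, hrk, hrk]
        · simp
        · refine ⟨heE, ?_⟩
          rw [(hflat _).closure]
          exact (he i hi h1 h2).2
    rw [hcl, (hflat _).closure]
  · rw [dif_pos (by omega : d < d + 1)]
    exact htop
  · intro i
    simp [i.2]

lemma generates_of_cov {F : Fin (d + 1) → Set α} {A : Fl M d} (hA : ∀ i : Fin (d + 1), A.f i = F i)
    {K : Set (Set α)} (hK : ∀ i < d, ∃ k ∈ K, Cov k A i) :
    Generates M K F := by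
  classical
  intro i
  refine ⟨{k | k ∈ K ∧ F i ⊆ k}, ?_, ?_⟩
  · intro k hk
    exact hk.1
  · have hile : (i : ℕ) ≤ d := by omega
    apply subset_antisymm
    · intro x hx
      refine ⟨?_, ?_⟩
      · rw [← hA i] at hx
        exact A.subset_ground hile hx
      · rintro k ⟨_, hk⟩
        exact hk hx
    · rintro x ⟨hxE, hx⟩
      by_contra hxF
      -- the largest level not containing `x`
      have hP : ∃ j, x ∈ A.f (i + j) := ⟨d - i, by
        rw [show (i : ℕ) + (d - i) = d by omega, A.top]; exact hxE⟩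
      have h0 : Nat.find hP ≠ 0 := by
        intro h
        have := Nat.find_spec hP
        rw [h, add_zero, hA i] at this
        exact hxF this
      obtain ⟨j, hj⟩ := Nat.exists_eq_succ_of_ne_zero h0
      have hle : Nat.find hP ≤ d - i := Nat.find_min' hP (by
        rw [show (i : ℕ) + (d - i) = d by omega, A.top]; exact hxE)
      have hnot : x ∉ A.f (i + j) := Nat.find_min hP (by omega)
      have hin : x ∈ A.f (i + j + 1) := by
        have := Nat.find_spec hP
        rwa [hj] at this
      have hlt : (i : ℕ) + j < d := by omega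
      obtain ⟨k, hkK, hkH, hksub, hke⟩ := hK _ hlt
      have hFi : F i ⊆ k := by
        rw [← hA i]
        exact (A.mono (by omega) hlt.le).trans hksub
      have hxk : x ∈ k := hx k ⟨hkK, hFi⟩
      apply hke
      rw [A.succ _ hlt] at hin
      have hex := closure_exchange (M := M) (X := A.f (i + j)) ⟨hin, by
        rw [(A.isFlat hlt.le).closure]; exact hnot⟩
      have := M.closure_subset_closure (insert_subset hxk hksub) hex.1
      rwa [hkH.1.closure] at this

end Mat

open Matroid in
/-- **Main theorem.** In every finite matroid `M` of rank `d`, any `m` complete flags of flats are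
generated by a family of at most `μ(m,d)` hyperplanes of `M`. -/
theorem result {α : Type*} (M : Matroid α) [M.Finite] (m d : ℕ) (hm : 1 ≤ m) (hd : 1 ≤ d)
    (hr : M.eRank = (d : ℕ∞)) (F : Fin m → Fin (d + 1) → Set α)
    (hF : ∀ j, IsCompleteFlag M d (F j)) :
    ∃ H : Finset (Set α), H.card ≤ mu m d ∧ (∀ K ∈ H, IsHyperplane M K) ∧
      ∀ j, Generates M (H : Set (Set α)) (F j) := by
  classical
  choose A hA using fun j => exists_fl hd (hF j)
  by_cases hd1 : d = 1
  · subst hd1
    have hK : IsHyperplane M (M.closure ∅) := by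
      refine ⟨M.isFlat_closure _, ?_⟩
      rw [eRk_closure_eq, eRk_empty, hr]
      simp
    refine ⟨{M.closure ∅}, by simp [mu], by simpa using hK, ?_⟩
    intro j
    refine generates_of_cov (hA j) ?_
    intro i hi
    obtain rfl : i = 0 := by omega
    refine ⟨M.closure ∅, by simp, hK, ?_, ?_⟩
    · rw [(A j).zero]
    · rw [← (A j).zero]; exact (A j).notMem 0 (by omega)
  · obtain ⟨K, hK, h1, h2, h3⟩ := many_flags M.ground_finite m A
    refine ⟨K.filter (fun k => IsHyperplane M k), ?_, ?_, ?_⟩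
    · refine (Finset.card_filter_le _ _).trans ?_
      unfold mu
      by_cases hm1 : m = 1
      · simpa [hm1] using h1 hm1
      · rw [if_neg (by tauto)]
        by_cases hev : Even m
        · rw [if_pos hev]
          have := h2 hev
          omega
        · rw [if_neg hev]
          have hodd : Odd m := Nat.not_even_iff_odd.1 hev
          have := h3 hodd hm1
          obtain ⟨t, ht⟩ := hodd
          have e1 : (m - 1) * d = 2 * (t * d) := by
            rw [ht]; simp; ring
          rw [e1] at this ⊢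
          rw [Nat.mul_div_cancel_left _ (by norm_num : 0 < 2)]
          omega
    · intro k hk
      exact (Finset.mem_filter.1 hk).2
    · intro j
      refine generates_of_cov (hA j) ?_
      intro i hi
      obtain ⟨k, hk, hk'⟩ := hK j i hi
      exact ⟨k, by simpa using ⟨hk, hk'.1⟩, hk'⟩

end Pool.H50.MV.HyperplanesGenerateFlags
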